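import Pool.Agent.Y493.HL.Cosets

/-!
# The dimensions `p ≤ d ≤ 2 p - 4`
-/

set_option autoImplicit false

namespace Pool.Agent.Y493.HL

open Finset Pool.Agent.Results.MP_487945_co.PositiveChar

universe u

variable {k : Type u} [Field k] [Infinite k] (p : ℕ) [hp : Fact p.Prime] [CharP k p]

theorem main3 (a b : ℕ) (ha1 : 1 ≤ a) (hb1 : 1 ≤ b) (ha : a + 1 ≤ p - 1) (hb : b + 1 ≤ p - 1)
    (hab : p ≤ a + b) :
    ∃ t : Fin (a + 1) ⊕ Fin (b + 1) → k, Function.Injective t ∧ (∀ v, t v ≠ 0) ∧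
      ¬ HasLefschetz (joinBdry (Fin (a + 1)) (Fin (b + 1))) (momentCurve (a + b) t) := by
  classical
  have h5 : 5 ≤ p := by
    have h4 : p ≠ 4 := by rintro rfl; exact absurd hp.out (by decide)
    omega
  obtain ⟨g, hg⟩ : ∃ g : k, g ^ p ≠ g := by
    have hne : (Polynomial.X ^ p - Polynomial.X : Polynomial k) ≠ 0 :=
      FiniteField.X_pow_card_sub_X_ne_zero k (by omega)
    obtain ⟨x, hx⟩ := Infinite.exists_notMem_finset
      (Polynomial.X ^ p - Polynomial.X : Polynomial k).roots.toFinset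
    refine ⟨x, fun h => hx ?_⟩
    rw [Multiset.mem_toFinset, Polynomial.mem_roots hne]
    simp [Polynomial.IsRoot, h]
  obtain ⟨t, ht, ht0, hk⟩ := case_large p h5 g hg
  obtain ⟨f⟩ : Nonempty (Fin (a + 1) ↪ (ZMod p)ˣ) := Function.Embedding.nonempty_of_card_le (by
    rw [Fintype.card_fin, ZMod.card_units]; exact ha)
  obtain ⟨f'⟩ : Nonempty (Fin (b + 1) ↪ (ZMod p)ˣ) := Function.Embedding.nonempty_of_card_le (by
    rw [Fintype.card_fin, ZMod.card_units]; exact hb)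
  have hinj : Function.Injective (t ∘ Sum.map f f') :=
    ht.comp (Sum.map_injective.2 ⟨f.injective, f'.injective⟩)
  refine ⟨t ∘ Sum.map f f', hinj, fun v => ht0 _, ?_⟩
  refine (Pool.Agent.Results.MP_487945_co.PositiveChar.core (d := a + b) (N := p) (by simp; omega) (by simp; omega)
    (by simp; omega) hab (t ∘ Sum.map f f') hinj (fun v => ht0 _) ?_).2
  intro B _ _ s t' e1 e2
  have sub : ∀ {n : ℕ} (F : Fin n ↪ (ZMod p)ˣ) (ψ : (ZMod p)ˣ → B),
      ∏ i, ψ (F i) = 0 → ∏ x, ψ x = 0 := by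
    intro n F ψ hψ
    have h6 : ∏ x ∈ univ.map F, ψ x = 0 := by rw [Finset.prod_map]; exact hψ
    rw [← Finset.prod_mul_prod_compl (univ.map F) ψ, h6, zero_mul]
  exact hk B s t' (sub f (fun x => s + t (Sum.inl x) • t') e1)
    (sub f' (fun x => s + t (Sum.inr x) • t') e2)

end Pool.Agent.Y493.HL
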