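import Mathlib
import Pool.Agent.H613R3.MomAlg

/-!
# Additive polynomials in two variables

For a finite subgroup `V` of order `p ^ m` of a field of odd characteristic `p` which is spanned
by `m` elements, the product of the linear forms `a + v w`, `v ∈ V`.
-/

set_option autoImplicit false

namespace Pool.Agent.Y493.HL

open Finset

universe u

/-- a multiplicative family of subspaces -/
def Fam {k B : Type u} [Field k] [CommRing B] [Algebra k B] (G : ℕ → Submodule k B) : Prop :=
  (1 : B) ∈ G 0 ∧ ∀ i j a b, a ∈ G i → b ∈ G j → a * b ∈ G (i + j)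

section Fam

variable {k B : Type u} [Field k] [CommRing B] [Algebra k B] {G : ℕ → Submodule k B}

theorem Fam.pow (hG : Fam G) {i : ℕ} {a : B} (ha : a ∈ G i) (n : ℕ) : a ^ n ∈ G (i * n) := by
  induction n with
  | zero => simpa using hG.1
  | succ n ih =>
    rw [pow_succ, Nat.mul_succ]
    exact hG.2 _ _ _ _ ih ha

theorem Fam.prod (hG : Fam G) {ι : Type} [DecidableEq ι] (s : Finset ι) (f : ι → B)
    (h : ∀ x ∈ s, f x ∈ G 1) : ∏ x ∈ s, f x ∈ G s.card := by
  induction s using Finset.induction_on with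
  | empty => simpa using hG.1
  | insert x s hx ih =>
    rw [Finset.prod_insert hx, Finset.card_insert_of_notMem hx, add_comm s.card 1]
    exact hG.2 _ _ _ _ (h x (Finset.mem_insert_self _ _))
      (ih fun y hy => h y (Finset.mem_insert_of_mem hy))

end Fam

variable {k : Type u} [Field k] (p : ℕ) [hp : Fact p.Prime] [CharP k p]

/-- the inclusion of the prime field -/
noncomputable abbrev phi (k : Type u) [Field k] [CharP k p] : ZMod p →+* k :=
  ZMod.castHom (dvd_refl p) k

theorem prod_zmod (hodd : p ≠ 2) {B : Type u} [CommRing B] [Algebra k B] (s t : B) :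
    ∏ c : ZMod p, (s + phi p k c • t) = s ^ p - s * t ^ (p - 1) := by
  classical
  rw [← Finset.mul_prod_erase univ _ (mem_univ (0 : ZMod p))]
  have h1 : ∏ c ∈ (univ : Finset (ZMod p)).erase 0, (s + phi p k c • t) =
      ∏ z : (ZMod p)ˣ, (s + phi p k (z : ZMod p) • t) := by
    symm
    refine Finset.prod_bij (fun z _ => (z : ZMod p)) ?_ ?_ ?_ ?_
    · intro z _; simp
    · intro z _ z' _ h; exact Units.ext h
    · intro c hc
      have hc0 : c ≠ 0 := (Finset.mem_erase.1 hc).1
      exact ⟨Units.mk0 c hc0, mem_univ _, rfl⟩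
    · intro z _; rfl
  rw [h1, H613R3.Mom.prod_units p hodd, map_zero, zero_smul, add_zero, mul_sub,
    mul_pow_sub_one hp.out.ne_zero]

/-- the properties used: the index group is `ι`, `v x` are the elements of the subgroup -/
structure Good (m : ℕ) (ι : Type) [Fintype ι] [AddCommGroup ι] (v : ι →+ k) : Prop where
  card : Fintype.card ι = p ^ m
  inj : Function.Injective v
  shift : ∀ (B : Type u) [CommRing B] [Algebra k B] [CharP B p] (a w : B) (s : k),
    ∏ x, (a + (s + v x) • w) = ∏ x, (a + v x • w) + (∏ x, (s + v x)) • w ^ (p ^ m)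
  frob : ∀ (B : Type u) [CommRing B] [Algebra k B] [CharP B p] (G : ℕ → Submodule k B), Fam G →
    ∀ a ∈ G 1, ∀ w ∈ G 1, ∃ z ∈ G (p ^ m),
      (∏ x, (a + v x • w)) ^ p = a ^ (p ^ (m + 1)) - w ^ (p ^ (m + 1) - p ^ m) * z

namespace Good

variable {p} {m : ℕ} {ι : Type} [Fintype ι] [AddCommGroup ι] {v : ι →+ k} (h : Good p m ι v)

include h

/-- the additive polynomial as a homomorphism -/
noncomputable def E : k →+ k where
  toFun s := ∏ x, (s + v x)
  map_zero' := Finset.prod_eq_zero (mem_univ (0 : ι)) (by simp)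
  map_add' s t := by
    have h1 := h.shift k s 1 t
    simp only [smul_eq_mul, mul_one, one_pow] at h1
    rw [← h1]
    exact Finset.prod_congr rfl fun x _ => by ring

theorem E_apply (s : k) : h.E s = ∏ x, (s + v x) := rfl

theorem E_phi (c : ZMod p) (g : k) : h.E (phi p k c * g) = phi p k c * h.E g := by
  have h1 : phi p k c = ((c.val : ℕ) : k) := by
    conv_lhs => rw [← ZMod.natCast_zmod_val c]
    rw [map_natCast]
  rw [h1, ← nsmul_eq_mul, map_nsmul, nsmul_eq_mul]

theorem E_v (x : ι) : h.E (v x) = 0 :=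
  Finset.prod_eq_zero (mem_univ (-x)) (by simp)

theorem exists_ne [Infinite k] : ∃ g, h.E g ≠ 0 := by
  classical
  obtain ⟨g, hg⟩ := Infinite.exists_notMem_finset (univ.image fun x => -v x)
  refine ⟨g, Finset.prod_ne_zero_iff.2 fun x _ hx => hg ?_⟩
  exact Finset.mem_image.2 ⟨x, mem_univ _, (eq_neg_of_add_eq_zero_left hx).symm⟩

omit h in
/-- the next subgroup -/
noncomputable def next (p : ℕ) [Fact p.Prime] [CharP k p] (v : ι →+ k) (g : k) :
    ZMod p × ι →+ k :=
  AddMonoidHom.coprod ((AddMonoidHom.mulRight g).comp (phi p k).toAddMonoidHom) v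

omit h in
theorem next_apply (g : k) (y : ZMod p × ι) : next p v g y = phi p k y.1 * g + v y.2 := rfl

theorem prod_next (hodd : p ≠ 2) {B : Type u} [CommRing B] [Algebra k B] [CharP B p] (g : k)
    (a w : B) (s : k) :
    ∏ y, (a + (s + next p v g y) • w) =
      (∏ x, (a + v x • w) + h.E s • w ^ (p ^ m)) ^ p -
        (∏ x, (a + v x • w) + h.E s • w ^ (p ^ m)) * (h.E g • w ^ (p ^ m)) ^ (p - 1) := by
  rw [← prod_zmod (k := k) p hodd, Fintype.prod_prod_type]
  refine Finset.prod_congr rfl fun c _ => ?_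
  have h1 : ∀ x : ι, a + (s + next p v g (c, x)) • w = a + ((s + phi p k c * g) + v x) • w := by
    intro x
    rw [next_apply, ← add_assoc]
  rw [Finset.prod_congr rfl fun x _ => h1 x, h.shift B a w (s + phi p k c * g), ← h.E_apply,
    map_add, h.E_phi, add_smul, smul_smul, add_assoc]

theorem E_next (hodd : p ≠ 2) (g s : k) :
    ∏ y, (s + next p v g y) = h.E s ^ p - h.E s * h.E g ^ (p - 1) := by
  have h1 := h.prod_next hodd (B := k) g 0 1 s
  simp only [smul_eq_mul, mul_one, one_pow, zero_add] at h1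
  rw [h1]
  have h2 : ∏ x, v x = 0 := Finset.prod_eq_zero (mem_univ (0 : ι)) (map_zero v)
  rw [h2, zero_add]

theorem top (hodd : p ≠ 2) (g : k) (B : Type u) [CommRing B] [Algebra k B] [CharP B p]
    (G : ℕ → Submodule k B) (hG : Fam G) (a : B) (ha : a ∈ G 1) (w : B) (hw : w ∈ G 1) :
    ∃ z ∈ G (p ^ m), ∏ y, (a + next p v g y • w) =
      a ^ (p ^ (m + 1)) - w ^ (p ^ (m + 1) - p ^ m) * z := by
  classical
  obtain ⟨z, hz, e⟩ := h.frob B G hG a ha w hw
  have h1 := h.prod_next hodd (B := B) g a w 0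
  simp only [zero_add, map_zero, zero_smul, add_zero] at h1
  refine ⟨z + (h.E g ^ (p - 1)) • ∏ x, (a + v x • w), ?_, ?_⟩
  · refine (G _).add_mem hz ((G _).smul_mem _ ?_)
    have h2 := hG.prod univ (fun x => a + v x • w) fun x _ =>
      (G 1).add_mem ha ((G 1).smul_mem _ hw)
    rwa [Finset.card_univ, h.card] at h2
  · rw [h1, e, smul_pow, ← pow_mul]
    have h3 : p ^ m * (p - 1) = p ^ (m + 1) - p ^ m := by
      rw [Nat.mul_sub, mul_one, pow_succ]
    rw [h3, mul_add, mul_smul_comm, mul_smul_comm, mul_comm (∏ x, (a + v x • w))]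
    abel

theorem good_next (hodd : p ≠ 2) {g : k} (hg : h.E g ≠ 0) :
    Good p (m + 1) (ZMod p × ι) (next p v g) where
  card := by rw [Fintype.card_prod, ZMod.card, h.card, pow_succ, mul_comm]
  inj := by
    rintro ⟨c, x⟩ ⟨c', x'⟩ hxy
    have h1 := congrArg h.E hxy
    simp only [next_apply, map_add, h.E_phi, h.E_v, add_zero] at h1
    have h2 : c = c' := (phi p k).injective (mul_right_cancel₀ hg h1)
    subst h2
    simp only [next_apply, add_right_inj] at hxy
    rw [h.inj hxy]
  shift := by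
    intro B _ _ _ a w s
    have h1 := h.prod_next hodd (B := B) g a w s
    have h0 := h.prod_next hodd (B := B) g a w 0
    simp only [zero_add, map_zero, zero_smul, add_zero] at h0
    rw [h1, h0, h.E_next hodd, add_pow_char, sub_smul, smul_pow, ← pow_mul, ← pow_succ, add_mul,
      smul_pow, ← pow_mul]
    have h3 : (h.E s • w ^ p ^ m) * (h.E g ^ (p - 1) • w ^ (p ^ m * (p - 1))) =
        (h.E s * h.E g ^ (p - 1)) • w ^ p ^ (m + 1) := by
      rw [smul_mul_smul_comm, ← pow_add]
      congr 2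
      have := hp.out.pos
      rw [pow_succ]
      obtain ⟨r, rfl⟩ : ∃ r, p = r + 1 := ⟨p - 1, by omega⟩
      simp only [Nat.add_sub_cancel]
      ring
    rw [h3]
    abel
  frob := by
    intro B _ _ _ G hG a ha w hw
    obtain ⟨z, hz, e⟩ := h.top hodd g B G hG a ha w hw
    refine ⟨z ^ p, ?_, ?_⟩
    · have := hG.pow hz p
      rwa [← pow_succ] at this
    · rw [e, sub_pow_char, mul_pow, ← pow_mul, ← pow_mul, ← pow_succ]
      congr 3
      rw [Nat.sub_mul, ← pow_succ, ← pow_succ]

end Good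

theorem good_zero : Good (k := k) p 0 PUnit (0 : PUnit →+ k) where
  card := by simp
  inj := fun _ _ _ => Subsingleton.elim _ _
  shift := by
    intro B _ _ _ a w s
    simp
  frob := by
    intro B _ _ _ G hG a ha w hw
    exact ⟨0, (G _).zero_mem, by simp⟩

theorem exists_good [Infinite k] (hodd : p ≠ 2) (m : ℕ) :
    ∃ (ι : Type) (_ : Fintype ι) (_ : AddCommGroup ι) (v : ι →+ k), Good p m ι v := by
  induction m with
  | zero => exact ⟨PUnit, inferInstance, inferInstance, 0, good_zero p⟩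
  | succ m ih =>
    obtain ⟨ι, _, _, v, h⟩ := ih
    obtain ⟨g, hg⟩ := h.exists_ne
    exact ⟨_, inferInstance, inferInstance, _, h.good_next hodd hg⟩

theorem exists_good_top [Infinite k] (hodd : p ≠ 2) (m : ℕ) :
    ∃ (ι : Type) (_ : Fintype ι) (_ : AddCommGroup ι) (v : ι →+ k), Good p (m + 1) ι v ∧
      ∀ (B : Type u) [CommRing B] [Algebra k B] [CharP B p] (G : ℕ → Submodule k B), Fam G →
        ∀ a ∈ G 1, ∀ w ∈ G 1, ∃ z ∈ G (p ^ m), ∏ y, (a + v y • w) =
          a ^ (p ^ (m + 1)) - w ^ (p ^ (m + 1) - p ^ m) * z := by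
  obtain ⟨ι, _, _, v, h⟩ := exists_good (k := k) p hodd m
  obtain ⟨g, hg⟩ := h.exists_ne
  exact ⟨_, inferInstance, inferInstance, _, h.good_next hodd hg,
    fun B _ _ _ G hG a ha w hw => h.top hodd g B G hG a ha w hw⟩

end Pool.Agent.Y493.HL
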