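import Pool.Agent.Y493.HL.Main

/-!
# Several cosets
-/

set_option autoImplicit false

namespace Pool.Agent.Y493.HL

open Finset Pool.Agent.Results.MP_487945_co.PositiveChar

universe u

section Elim

variable {k B J : Type*} [Field k] [CommRing B] [Algebra k B] [DecidableEq J]

theorem elim (X Y : B) (e : J → k) : ∀ (n : ℕ) (S T : Finset J) (y : B), S.card + T.card = n + 1 →
    S.Nonempty → T.Nonempty → (∀ c ∈ S, ∀ c' ∈ T, e c ≠ e c') →
    (∏ c ∈ S, (X + e c • Y)) * y = 0 → (∏ c ∈ T, (X + e c • Y)) * y = 0 →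
    ∀ h ∈ (Submodule.span k {X, Y}) ^ n, h * y = 0 := by
  intro n
  induction n with
  | zero =>
    intro S T y hc hS hT
    have := hS.card_pos
    have := hT.card_pos
    omega
  | succ n ih =>
    intro S T y hc hS hT hne h1 h2 h hh
    obtain ⟨c, hcS⟩ := hS
    obtain ⟨c', hcT⟩ := hT
    have y1 : ∀ h' ∈ (Submodule.span k {X, Y}) ^ n, h' * ((X + e c • Y) * y) = 0 := by
      intro h' hh'
      by_cases hS1 : (S.erase c).Nonempty
      · refine ih (S.erase c) T _ ?_ hS1 ⟨c', hcT⟩ (fun a ha => hne a (Finset.mem_of_mem_erase ha))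
          ?_ ?_ h' hh'
        · rw [Finset.card_erase_of_mem hcS]
          have := Finset.card_pos.2 ⟨c, hcS⟩
          omega
        · rw [← mul_assoc, Finset.prod_erase_mul _ _ hcS, h1]
        · rw [mul_left_comm, h2, mul_zero]
      · rw [Finset.not_nonempty_iff_eq_empty] at hS1
        have h3 : (X + e c • Y) * y = 0 := by
          rw [← h1, ← Finset.mul_prod_erase S _ hcS, hS1, Finset.prod_empty, mul_one]
        rw [h3, mul_zero]
    have y2 : ∀ h' ∈ (Submodule.span k {X, Y}) ^ n, h' * ((X + e c' • Y) * y) = 0 := by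
      intro h' hh'
      by_cases hT1 : (T.erase c').Nonempty
      · refine ih S (T.erase c') _ ?_ ⟨c, hcS⟩ hT1
          (fun a ha a' ha' => hne a ha a' (Finset.mem_of_mem_erase ha')) ?_ ?_ h' hh'
        · rw [Finset.card_erase_of_mem hcT]
          have := Finset.card_pos.2 ⟨c', hcT⟩
          omega
        · rw [mul_left_comm, h1, mul_zero]
        · rw [← mul_assoc, Finset.prod_erase_mul _ _ hcT, h2]
      · rw [Finset.not_nonempty_iff_eq_empty] at hT1
        have h3 : (X + e c' • Y) * y = 0 := by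
          rw [← h2, ← Finset.mul_prod_erase T _ hcT, hT1, Finset.prod_empty, mul_one]
        rw [h3, mul_zero]
    have hd : e c - e c' ≠ 0 := sub_ne_zero.2 (hne c hcS c' hcT)
    rw [pow_succ] at hh
    induction hh using Submodule.mul_induction_on' with
    | add a _ b _ ha hb => rw [add_mul, ha, hb, add_zero]
    | mem_mul_mem h' hh' u hu =>
      obtain ⟨α, β, rfl⟩ := Submodule.mem_span_pair.1 hu
      obtain ⟨A, C, a1, a2⟩ : ∃ A C : k, α = A + C ∧ β = A * e c + C * e c' :=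
        ⟨(β - α * e c') / (e c - e c'), (α * e c - β) / (e c - e c'), by field_simp; ring,
          by field_simp; ring⟩
      have h4 : α • X + β • Y = A • (X + e c • Y) + C • (X + e c' • Y) := by
        rw [a1, a2]; module
      rw [h4, mul_add, add_mul, mul_smul_comm, mul_smul_comm, smul_mul_assoc, smul_mul_assoc,
        mul_assoc, mul_assoc, y1 h' hh', y2 h' hh', smul_zero, smul_zero, add_zero]

end Elim

section Powers

variable {k B : Type u} [Field k] [CommRing B] [Algebra k B] {G : ℕ → Submodule k B}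

/-- the two facts about `(U + w ^ (q - e) Z) ^ s` -/
theorem powers (hG : Fam G) {q e s : ℕ} (hs : 1 ≤ s) (heq : (s + 1) * e ≤ q) {X w U Z : B}
    (hX : X ∈ G q) (hw : w ∈ G 1) (hZ : Z ∈ G e) (hU : U ∈ Submodule.span k {X, w ^ q})
    (hM : ∀ h ∈ (Submodule.span k {X, w ^ q}) ^ s, h = 0) :
    w ^ (s * e) * (U + w ^ (q - e) * Z) ^ s = 0 ∧
      ∃ y ∈ G (s * q - s * e), (U + w ^ (q - e) * Z) ^ s = w ^ (s * e) * y := by
  have heq' : s * e + e ≤ q := by rw [Nat.add_mul, one_mul] at heq; exact heq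
  have hwq : w ^ q ∈ Submodule.span k {X, w ^ q} := Submodule.subset_span (by simp)
  have hUG : U ∈ G q := by
    have h1 : Submodule.span k {X, w ^ q} ≤ G q := by
      rw [Submodule.span_le]
      rintro x (rfl | rfl)
      · exact hX
      · have := hG.pow hw q
        rwa [one_mul] at this
    exact h1 hU
  constructor
  · rw [add_pow, Finset.mul_sum]
    refine Finset.sum_eq_zero fun i hi => ?_
    have hi' : i ≤ s := Nat.lt_succ_iff.1 (Finset.mem_range.1 hi)
    have h1 : U ^ i * (w ^ q) ^ (s - i) = 0 := by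
      apply hM
      have h2 := Submodule.mul_mem_mul (Submodule.pow_mem_pow _ hU i)
        (Submodule.pow_mem_pow _ hwq (s - i))
      rwa [← pow_add, Nat.add_sub_cancel' hi'] at h2
    have h3 : w ^ (s * e) * (U ^ i * (w ^ (q - e) * Z) ^ (s - i) * (s.choose i : B)) =
        (U ^ i * (w ^ q) ^ (s - i)) * (w ^ (i * e) * Z ^ (s - i) * (s.choose i : B)) := by
      have h4 : w ^ (s * e) * (w ^ (q - e)) ^ (s - i) = (w ^ q) ^ (s - i) * w ^ (i * e) := by
        rw [← pow_mul, ← pow_mul, ← pow_add, ← pow_add]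
        congr 1
        obtain ⟨j, rfl⟩ := Nat.exists_eq_add_of_le hi'
        obtain ⟨c, hc⟩ := Nat.exists_eq_add_of_le (show e ≤ q by omega)
        rw [hc, Nat.add_sub_cancel_left, Nat.add_sub_cancel_left]
        ring
      rw [mul_pow]
      calc w ^ (s * e) * (U ^ i * ((w ^ (q - e)) ^ (s - i) * Z ^ (s - i)) * (s.choose i : B)) =
          (w ^ (s * e) * (w ^ (q - e)) ^ (s - i)) * (U ^ i * Z ^ (s - i) * (s.choose i : B)) := by
            ring
        _ = _ := by rw [h4]; ring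
    rw [h3, h1, zero_mul]
  · let P : Submodule k B := (G (s * q - s * e)).map (LinearMap.mulLeft k (w ^ (s * e)))
    suffices h : (U + w ^ (q - e) * Z) ^ s ∈ P by
      obtain ⟨y, hy, h1⟩ := h
      exact ⟨y, hy, h1.symm⟩
    rw [add_pow]
    refine P.sum_mem fun i hi => ?_
    have hi' : i ≤ s := Nat.lt_succ_iff.1 (Finset.mem_range.1 hi)
    rcases Nat.eq_or_lt_of_le hi' with rfl | hlt
    · have h1 : U ^ i = 0 := hM _ (Submodule.pow_mem_pow _ hU i)
      rw [h1, zero_mul, zero_mul]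
      exact P.zero_mem
    · have hbig : s * e ≤ (q - e) * (s - i) := by
        calc s * e ≤ q - e := by omega
          _ ≤ (q - e) * (s - i) := Nat.le_mul_of_pos_right _ (by omega)
      have h3 : U ^ i * (w ^ (q - e) * Z) ^ (s - i) * (s.choose i : B) =
          w ^ (s * e) * ((s.choose i : k) • (U ^ i * (w ^ ((q - e) * (s - i) - s * e) *
            Z ^ (s - i)))) := by
        have h4 : (w ^ (q - e)) ^ (s - i) = w ^ (s * e) * w ^ ((q - e) * (s - i) - s * e) := by
          rw [← pow_mul, ← pow_add]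
          congr 1
          omega
        rw [mul_pow, h4, mul_smul_comm, Algebra.smul_def, map_natCast]
        ring
      rw [h3]
      refine ⟨_, ?_, rfl⟩
      refine Submodule.smul_mem _ _ ?_
      have h5 := hG.2 _ _ _ _ (hG.pow hUG i)
        (hG.2 _ _ _ _ (hG.pow hw ((q - e) * (s - i) - s * e)) (hG.pow hZ (s - i)))
      have h6 : q * i + (1 * ((q - e) * (s - i) - s * e) + e * (s - i)) = s * q - s * e := by
        obtain ⟨j, rfl⟩ := Nat.exists_eq_add_of_le hi'
        obtain ⟨c, hc⟩ := Nat.exists_eq_add_of_le (show e ≤ q by omega)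
        subst hc
        rw [Nat.add_sub_cancel_left, Nat.add_sub_cancel_left] at *
        have h7 : (i + j) * (e + c) = (i + j) * e + (i + j) * c := by ring
        rw [h7, Nat.add_sub_cancel_left, one_mul]
        have h8 : (e + c) * i + e * j + c * j = (i + j) * e + (i + j) * c := by ring
        omega
      rwa [h6] at h5

end Powers


section Core

variable {k : Type u} [Field k] {L R : Type} [Fintype L] [Fintype R] [DecidableEq L]
  [DecidableEq R]

/-- Failure of the Lefschetz property: the main reduction. -/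
theorem core2 {d e N : ℕ} (hL : 2 ≤ Fintype.card L) (hR : 2 ≤ Fintype.card R)
    (hd : Fintype.card (L ⊕ R) = d + 2) (hNe : e ≤ N) (hNd : N + 2 * e ≤ d)
    (t : L ⊕ R → k) (ht : Function.Injective t) (ht0 : ∀ v, t v ≠ 0)
    (hN : ∀ (B : Type u) [CommRing B] [Algebra k B] [Nontrivial B] (G : ℕ → Submodule k B),
      Fam G → ∀ s ∈ G 1, ∀ t' ∈ G 1,
      ∏ l, (s + t (Sum.inl l) • t') = 0 → ∏ r, (s + t (Sum.inr r) • t') = 0 →
      ∀ α β : k, t' ^ e * (α • s + β • t') ^ N = 0 ∧
        ∃ y ∈ G (N - e), (α • s + β • t') ^ N = t' ^ e * y) :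
    ¬ HasLefschetz (joinBdry L R) (momentCurve d t) := by
  obtain ⟨l0⟩ : Nonempty L := Fintype.card_pos_iff.mp (by omega)
  obtain ⟨r0⟩ : Nonempty R := Fintype.card_pos_iff.mp (by omega)
  set I := redIdeal (joinBdry L R) (momentCurve d t) with hI
  have h0 : (∅ : Finset (L ⊕ R)) ∈ joinBdry L R :=
    ⟨⟨l0, Finset.notMem_empty _⟩, ⟨r0, Finset.notMem_empty _⟩⟩
  have hnt : Nontrivial (Red (joinBdry L R) (momentCurve d t)) :=
    Ideal.Quotient.nontrivial_iff.mpr (redIdeal_ne_top h0 _)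
  have hG : Fam (k := k) (B := Red (joinBdry L R) (momentCurve d t))
    (gr (joinBdry L R) (momentCurve d t)) := fam_gr
  let x : L ⊕ R → Red (joinBdry L R) (momentCurve d t) := fun v =>
    Ideal.Quotient.mk I (MvPolynomial.X v)
  have hx1 : ∀ v, x v ∈ gr (joinBdry L R) (momentCurve d t) 1 := fun v =>
    ⟨MvPolynomial.X v, MvPolynomial.isHomogeneous_X _ _, rfl⟩
  have hrel : ∀ j, 1 ≤ j → j ≤ d → ∑ v, (t v ^ j) • x v = 0 := by
    intro j hj1 hjd
    have hmem : theta (momentCurve d t) ⟨j - 1, by omega⟩ ∈ I := by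
      rw [hI, redIdeal]
      exact Ideal.mem_sup_right (Ideal.subset_span ⟨_, rfl⟩)
    have h1 := Ideal.Quotient.eq_zero_iff_mem.mpr hmem
    rw [theta, map_sum] at h1
    rw [← h1]
    apply Finset.sum_congr rfl
    intro v _
    simp only [momentCurve, x]
    rw [show j - 1 + 1 = j by omega, ← MvPolynomial.smul_eq_C_mul]
    rfl
  obtain ⟨s, t', c, hc0, hc⟩ := H613R3.Mom.lin ht ht0 hd hrel
  have hst : ∀ v, s + t v • t' ∈ gr (joinBdry L R) (momentCurve d t) 1 := by
    intro v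
    have h1 : s + t v • t' = (c v)⁻¹ • x v := by
      rw [hc v, smul_smul, inv_mul_cancel₀ (hc0 v), one_smul]
    rw [h1]
    exact Submodule.smul_mem _ _ (hx1 v)
  have hne : t (Sum.inl l0) - t (Sum.inr r0) ≠ 0 := by
    rw [sub_ne_zero]
    intro h
    exact absurd (ht h) (by simp)
  have ht1 : t' ∈ gr (joinBdry L R) (momentCurve d t) 1 := by
    have h1 : t' = (t (Sum.inl l0) - t (Sum.inr r0))⁻¹ •
        ((s + t (Sum.inl l0) • t') - (s + t (Sum.inr r0) • t')) := by
      rw [add_sub_add_left_eq_sub, ← sub_smul, smul_smul, inv_mul_cancel₀ hne, one_smul]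
    rw [h1]
    exact Submodule.smul_mem _ _ (Submodule.sub_mem _ (hst _) (hst _))
  have hs1 : s ∈ gr (joinBdry L R) (momentCurve d t) 1 := by
    have h1 : s = (s + t (Sum.inl l0) • t') - t (Sum.inl l0) • t' := by abel
    rw [h1]
    exact Submodule.sub_mem _ (hst _) (Submodule.smul_mem _ _ ht1)
  have hprodL : ∏ l, (s + t (Sum.inl l) • t') = 0 := by
    have hnf : (univ.map Function.Embedding.inl : Finset (L ⊕ R)) ∉ joinBdry L R := by
      rintro ⟨⟨l, hl⟩, _⟩
      exact hl (Finset.mem_map_of_mem _ (Finset.mem_univ l))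
    have hmem : (∏ v ∈ (univ.map Function.Embedding.inl : Finset (L ⊕ R)),
        MvPolynomial.X v : MvPolynomial (L ⊕ R) k) ∈ I := by
      rw [hI, redIdeal]
      exact Ideal.mem_sup_left (Ideal.subset_span ⟨_, hnf, rfl⟩)
    have h1 := Ideal.Quotient.eq_zero_iff_mem.mpr hmem
    rw [map_prod, Finset.prod_map] at h1
    have h2 : ∏ l, x (Sum.inl l) = 0 := h1
    rw [Finset.prod_congr rfl fun l _ => hc (Sum.inl l)] at h2
    rw [Finset.prod_smul] at h2
    rcases smul_eq_zero.mp h2 with h3 | h3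
    · exact absurd h3 (Finset.prod_ne_zero_iff.mpr fun l _ => hc0 _)
    · exact h3
  have hprodR : ∏ r, (s + t (Sum.inr r) • t') = 0 := by
    have hnf : (univ.map Function.Embedding.inr : Finset (L ⊕ R)) ∉ joinBdry L R := by
      rintro ⟨_, ⟨r, hr⟩⟩
      exact hr (Finset.mem_map_of_mem _ (Finset.mem_univ r))
    have hmem : (∏ v ∈ (univ.map Function.Embedding.inr : Finset (L ⊕ R)),
        MvPolynomial.X v : MvPolynomial (L ⊕ R) k) ∈ I := by
      rw [hI, redIdeal]
      exact Ideal.mem_sup_left (Ideal.subset_span ⟨_, hnf, rfl⟩)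
    have h1 := Ideal.Quotient.eq_zero_iff_mem.mpr hmem
    rw [map_prod, Finset.prod_map] at h1
    have h2 : ∏ r, x (Sum.inr r) = 0 := h1
    rw [Finset.prod_congr rfl fun r _ => hc (Sum.inr r)] at h2
    rw [Finset.prod_smul] at h2
    rcases smul_eq_zero.mp h2 with h3 | h3
    · exact absurd h3 (Finset.prod_ne_zero_iff.mpr fun r _ => hc0 _)
    · exact h3
  have hlin : ∀ ℓ ∈ gr (joinBdry L R) (momentCurve d t) 1, ∃ α β : k, ℓ = α • s + β • t' := by
    intro ℓ hℓ
    obtain ⟨f, hf, rfl⟩ := hℓ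
    rw [MvPolynomial.homogeneousSubmodule_one_eq_span_X] at hf
    induction hf using Submodule.span_induction with
    | zero => exact ⟨0, 0, by simp⟩
    | add a b _ _ ha hb =>
      obtain ⟨α, β, h1⟩ := ha
      obtain ⟨α', β', h2⟩ := hb
      refine ⟨α + α', β + β', ?_⟩
      rw [map_add, h1, h2, add_smul, add_smul]
      abel
    | smul r a _ ha =>
      obtain ⟨α, β, h1⟩ := ha
      refine ⟨r * α, r * β, ?_⟩
      rw [map_smul, h1, smul_add, smul_smul, smul_smul]
    | mem a ha =>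
      obtain ⟨v, rfl⟩ := ha
      refine ⟨c v, c v * t v, ?_⟩
      have : (Ideal.Quotient.mkₐ k (redIdeal (joinBdry L R) (momentCurve d t))).toLinearMap
          (MvPolynomial.X v) = x v := rfl
      rw [this, hc v, smul_add, smul_smul]
  rintro ⟨ℓ, hℓ, hbij⟩
  obtain ⟨α, β, hαβ⟩ := hlin ℓ hℓ
  obtain ⟨hk, y0, hy0, hy1⟩ := hN _ (gr (joinBdry L R) (momentCurve d t)) hG s hs1 t' ht1
    hprodL hprodR α β
  have hkill : t' ^ e * ℓ ^ N = 0 := by rw [hαβ]; exact hk
  have hℓN : ℓ ^ N = t' ^ e * y0 := by rw [hαβ]; exact hy1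
  -- the elements of degree `d - e`
  have hkill2 : ∀ y ∈ gr (joinBdry L R) (momentCurve d t) (d - e), t' ^ e * y = 0 := by
    intro y hy
    obtain ⟨y', _, rfl⟩ := (hbij e (by omega)).surjOn hy
    simp only
    have h1 : ℓ ^ (d - 2 * e) = ℓ ^ N * ℓ ^ (d - 2 * e - N) := by
      rw [← pow_add]; congr 1; omega
    rw [h1, mul_assoc, ← mul_assoc, hkill, zero_mul]
  have hℓd : ℓ ^ d = 0 := by
    have h1 : ℓ ^ d = t' ^ e * (y0 * ℓ ^ (d - N)) := by
      have h2 : ℓ ^ d = ℓ ^ N * ℓ ^ (d - N) := by rw [← pow_add]; congr 1; omega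
      rw [h2, hℓN, mul_assoc]
    rw [h1, hkill2]
    have h4 := hG.2 _ _ _ _ hy0 (hG.pow hℓ (d - N))
    have h5 : N - e + 1 * (d - N) = d - e := by omega
    rwa [h5] at h4
  have h1 := (hbij 0 (by omega)).injOn
  have h2 : (1 : Red (joinBdry L R) (momentCurve d t)) = 0 := by
    apply h1 hG.1 (Submodule.zero_mem _)
    simp only [Nat.mul_zero, Nat.sub_zero, hℓd, zero_mul]
  exact one_ne_zero h2

end Core

variable {k : Type u} [Field k] [Infinite k] (p : ℕ) [hp : Fact p.Prime] [CharP k p]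

theorem main2 (m s a b r r' : ℕ) (hr : 1 ≤ r) (hr' : 1 ≤ r') (hs : r + r' = s + 1)
    (hsp : s + 2 ≤ p) (ha1 : 1 ≤ a) (hb1 : 1 ≤ b)
    (ha : a + 1 ≤ r * p ^ (m + 1)) (hb : b + 1 ≤ r' * p ^ (m + 1))
    (hab : s * p ^ (m + 1) + 2 * (s * p ^ m) ≤ a + b) :
    ∃ t : Fin (a + 1) ⊕ Fin (b + 1) → k, Function.Injective t ∧ (∀ v, t v ≠ 0) ∧
      ¬ HasLefschetz (joinBdry (Fin (a + 1)) (Fin (b + 1))) (momentCurve (a + b) t) := by
  classical
  have hs1 : 1 ≤ s := by omega
  have hodd : p ≠ 2 := by omega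
  obtain ⟨ι, _, _, v, h, htop⟩ := exists_good_top (k := k) p hodd m
  obtain ⟨g, hg⟩ := h.exists_ne
  -- the cosets
  obtain ⟨CL, hCL, hCLr⟩ : ∃ C ⊆ (univ : Finset (ZMod p)).erase 0, C.card = r := by
    apply Finset.exists_subset_card_eq
    rw [Finset.card_erase_of_mem (mem_univ _), Finset.card_univ, ZMod.card]
    omega
  obtain ⟨CR, hCR, hCRr⟩ : ∃ C ⊆ ((univ : Finset (ZMod p)).erase 0) \ CL, C.card = r' := by
    apply Finset.exists_subset_card_eq
    rw [Finset.card_sdiff_of_subset hCL, Finset.card_erase_of_mem (mem_univ _), Finset.card_univ,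
      ZMod.card]
    omega
  have hLR : ∀ c ∈ CL, ∀ c' ∈ CR, c ≠ c' := by
    rintro c hc c' hc' rfl
    exact (Finset.mem_sdiff.1 (hCR hc')).2 hc
  have hL0 : ∀ c ∈ CL, c ≠ 0 := fun c hc => (Finset.mem_erase.1 (hCL hc)).1
  have hR0 : ∀ c ∈ CR, c ≠ 0 := fun c hc =>
    (Finset.mem_erase.1 (Finset.mem_sdiff.1 (hCR hc)).1).1
  obtain ⟨f⟩ : Nonempty (Fin (a + 1) ↪ CL × ι) := Function.Embedding.nonempty_of_card_le (by
    rw [Fintype.card_fin, Fintype.card_prod, h.card, Fintype.card_coe, hCLr]; exact ha)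
  obtain ⟨f'⟩ : Nonempty (Fin (b + 1) ↪ CR × ι) := Function.Embedding.nonempty_of_card_le (by
    rw [Fintype.card_fin, Fintype.card_prod, h.card, Fintype.card_coe, hCRr]; exact hb)
  have hinj : ∀ (c c' : ZMod p) (x x' : ι), phi p k c * g + v x = phi p k c' * g + v x' →
      c = c' ∧ x = x' := by
    intro c c' x x' hxy
    have h1 := congrArg h.E hxy
    simp only [map_add, h.E_phi, h.E_v, add_zero] at h1
    have h2 : c = c' := (phi p k).injective (mul_right_cancel₀ hg h1)
    subst h2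
    exact ⟨rfl, h.inj (add_left_cancel hxy)⟩
  have hne0 : ∀ (c : ZMod p) (x : ι), c ≠ 0 → phi p k c * g + v x ≠ 0 := by
    intro c x hc hx
    have h1 := hinj c 0 x 0 (by rw [hx, map_zero, map_zero, zero_mul, zero_add])
    exact hc h1.1
  let t : Fin (a + 1) ⊕ Fin (b + 1) → k := fun y =>
    y.elim (fun i => phi p k (f i).1 * g + v (f i).2) (fun j => phi p k (f' j).1 * g + v (f' j).2)
  have ht : Function.Injective t := by
    rintro (i | i) (j | j) hij
    · have h1 := hinj _ _ _ _ hij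
      rw [f.injective (Prod.ext (Subtype.ext h1.1) h1.2)]
    · exact absurd (hinj _ _ _ _ hij).1 (hLR _ (f i).1.2 _ (f' j).1.2)
    · exact absurd (hinj _ _ _ _ hij).1.symm (hLR _ (f j).1.2 _ (f' i).1.2)
    · have h1 := hinj _ _ _ _ hij
      rw [f'.injective (Prod.ext (Subtype.ext h1.1) h1.2)]
  have ht0 : ∀ y, t y ≠ 0 := by
    rintro (i | i)
    · exact hne0 _ _ (hL0 _ (f i).1.2)
    · exact hne0 _ _ (hR0 _ (f' i).1.2)
  have hpm : 0 < p ^ m := pow_pos hp.out.pos m
  have heq : (s + 1) * p ^ m ≤ p ^ (m + 1) := by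
    rw [pow_succ, mul_comm (p ^ m) p]
    exact Nat.mul_le_mul_right _ (by omega)
  have hse : s * p ^ m ≤ s * p ^ (m + 1) :=
    Nat.mul_le_mul_left _ (Nat.pow_le_pow_right hp.out.pos (by omega))
  refine ⟨t, ht, ht0, ?_⟩
  refine core2 (d := a + b) (e := s * p ^ m) (N := s * p ^ (m + 1)) (by simp; omega)
    (by simp; omega) (by simp; omega) hse hab t ht ht0 ?_
  intro B _ _ _ G hG s0 hs0 t' ht' e1 e2 α β
  have : CharP B p := charP_of_injective_algebraMap (algebraMap k B).injective p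
  have sub : ∀ {n : ℕ} {C : Finset (ZMod p)} (F : Fin n ↪ C × ι) (ψ : ZMod p → ι → B),
      ∏ i, ψ (F i).1 (F i).2 = 0 → ∏ c ∈ C, ∏ x, ψ c x = 0 := by
    intro n C F ψ hψ
    have h5 : ∏ y ∈ univ.map F, ψ (y.1 : ZMod p) y.2 = 0 := by rw [Finset.prod_map]; exact hψ
    have h6 : ∏ y : C × ι, ψ (y.1 : ZMod p) y.2 = 0 := by
      rw [← Finset.prod_mul_prod_compl (univ.map F), h5, zero_mul]
    rw [Fintype.prod_prod_type] at h6
    rw [← Finset.prod_coe_sort C (fun c => ∏ x, ψ c x)]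
    exact h6
  have c1 := sub f (fun c x => s0 + (phi p k c * g + v x) • t') e1
  have c2 := sub f' (fun c x => s0 + (phi p k c * g + v x) • t') e2
  simp only [h.shift B s0 t', ← h.E_apply, h.E_phi] at c1 c2
  have hM : ∀ y ∈ (Submodule.span k {∏ x, (s0 + v x • t'), t' ^ p ^ (m + 1)}) ^ s, y = 0 := by
    intro y hy
    have h5 := elim (∏ x, (s0 + v x • t')) (t' ^ p ^ (m + 1)) (fun c => phi p k c * h.E g) s CL CR
      1 (by omega) (Finset.card_pos.1 (by omega)) (Finset.card_pos.1 (by omega)) ?_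
      (by rw [mul_one]; exact c1) (by rw [mul_one]; exact c2) y hy
    · rwa [mul_one] at h5
    · intro c hc c' hc' hcc
      exact hLR c hc c' hc' ((phi p k).injective (mul_right_cancel₀ hg hcc))
  obtain ⟨z, hz, hz2⟩ := htop B G hG s0 hs0 t' ht'
  have hX : ∏ x, (s0 + v x • t') ∈ G (p ^ (m + 1)) := by
    have h2 := hG.prod univ (fun x => s0 + v x • t') fun x _ =>
      (G 1).add_mem hs0 ((G 1).smul_mem _ ht')
    rwa [Finset.card_univ, h.card] at h2
  have hpow : (α • s0 + β • t') ^ (s * p ^ (m + 1)) =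
      ((α ^ p ^ (m + 1) • (∏ x, (s0 + v x • t')) + β ^ p ^ (m + 1) • t' ^ p ^ (m + 1)) +
        t' ^ (p ^ (m + 1) - p ^ m) * (α ^ p ^ (m + 1) • z)) ^ s := by
    rw [mul_comm s, pow_mul, add_pow_char_pow, smul_pow, smul_pow]
    congr 1
    have h3 : s0 ^ p ^ (m + 1) = ∏ x, (s0 + v x • t') + t' ^ (p ^ (m + 1) - p ^ m) * z := by
      rw [hz2]; ring
    rw [h3, smul_add, mul_smul_comm]
    abel
  rw [hpow]
  exact powers hG hs1 heq hX ht' ((G _).smul_mem _ hz)
    (Submodule.mem_span_pair.2 ⟨_, _, rfl⟩) hM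

end Pool.Agent.Y493.HL
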