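import Pool.Agent.Y493.HL.Add
import Pool.Agent.Results.MP_487945_co.PositiveChar

/-!
# Moment-curve systems without the Lefschetz property in arbitrarily high dimensions
-/

set_option autoImplicit false

namespace Pool.Agent.Y493.HL

open Finset Pool.Agent.Results.MP_487945_co.PositiveChar

universe u

section Gr

variable {k : Type u} [Field k] {V : Type} [Fintype V] {d : ℕ} {Δ : Set (Finset V)}
  {q : V → Fin d → k}

theorem fam_gr : Fam (k := k) (B := Red Δ q) (gr Δ q) := by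
  refine ⟨⟨1, MvPolynomial.isHomogeneous_one _ _,
    map_one (Ideal.Quotient.mkₐ k (redIdeal Δ q))⟩, ?_⟩
  rintro i j _ _ ⟨f, hf, rfl⟩ ⟨g, hg, rfl⟩
  exact ⟨f * g, MvPolynomial.IsHomogeneous.mul hf hg,
    map_mul (Ideal.Quotient.mkₐ k (redIdeal Δ q)) f g⟩

end Gr

section Core

variable {k : Type u} [Field k] {L R : Type} [Fintype L] [Fintype R] [DecidableEq L]
  [DecidableEq R]

/-- Failure of the Lefschetz property: the main reduction. -/
theorem core {d e Q : ℕ} (hL : 2 ≤ Fintype.card L) (hR : 2 ≤ Fintype.card R)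
    (hd : Fintype.card (L ⊕ R) = d + 2) (he : 0 < e) (hQe : 2 * e ≤ Q) (hQd : Q + 2 * e ≤ d)
    (t : L ⊕ R → k) (ht : Function.Injective t) (ht0 : ∀ v, t v ≠ 0)
    (hfrob : ∀ (B : Type u) [CommRing B] [Algebra k B] [Nontrivial B] (a w : B) (α β : k),
      (α • a + β • w) ^ Q = α ^ Q • a ^ Q + β ^ Q • w ^ Q)
    (hN : ∀ (B : Type u) [CommRing B] [Algebra k B] [Nontrivial B] (G : ℕ → Submodule k B),
      Fam G → ∀ s ∈ G 1, ∀ t' ∈ G 1,
      ∏ l, (s + t (Sum.inl l) • t') = 0 → ∏ r, (s + t (Sum.inr r) • t') = 0 →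
      t' ^ Q = 0 ∧ ∃ z ∈ G e, s ^ Q = t' ^ (Q - e) * z) :
    ¬ HasLefschetz (joinBdry L R) (momentCurve d t) := by
  obtain ⟨l0⟩ : Nonempty L := Fintype.card_pos_iff.mp (by omega)
  obtain ⟨r0⟩ : Nonempty R := Fintype.card_pos_iff.mp (by omega)
  set I := redIdeal (joinBdry L R) (momentCurve d t) with hI
  have h0 : (∅ : Finset (L ⊕ R)) ∈ joinBdry L R :=
    ⟨⟨l0, Finset.notMem_empty _⟩, ⟨r0, Finset.notMem_empty _⟩⟩
  have hnt : Nontrivial (Red (joinBdry L R) (momentCurve d t)) :=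
    Ideal.Quotient.nontrivial_iff.mpr (redIdeal_ne_top h0 _)
  have hG : Fam (k := k) (B := Red (joinBdry L R) (momentCurve d t))
    (gr (joinBdry L R) (momentCurve d t)) := fam_gr
  let x : L ⊕ R → Red (joinBdry L R) (momentCurve d t) := fun v =>
    Ideal.Quotient.mk I (MvPolynomial.X v)
  have hx1 : ∀ v, x v ∈ gr (joinBdry L R) (momentCurve d t) 1 := fun v =>
    ⟨MvPolynomial.X v, MvPolynomial.isHomogeneous_X _ _, rfl⟩
  have hrel : ∀ j, 1 ≤ j → j ≤ d → ∑ v, (t v ^ j) • x v = 0 := by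
    intro j hj1 hjd
    have hmem : theta (momentCurve d t) ⟨j - 1, by omega⟩ ∈ I := by
      rw [hI, redIdeal]
      exact Ideal.mem_sup_right (Ideal.subset_span ⟨_, rfl⟩)
    have h1 := Ideal.Quotient.eq_zero_iff_mem.mpr hmem
    rw [theta, map_sum] at h1
    rw [← h1]
    apply Finset.sum_congr rfl
    intro v _
    simp only [momentCurve, x]
    rw [show j - 1 + 1 = j by omega, ← MvPolynomial.smul_eq_C_mul]
    rfl
  obtain ⟨s, t', c, hc0, hc⟩ := H613R3.Mom.lin ht ht0 hd hrel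
  have hst : ∀ v, s + t v • t' ∈ gr (joinBdry L R) (momentCurve d t) 1 := by
    intro v
    have h1 : s + t v • t' = (c v)⁻¹ • x v := by
      rw [hc v, smul_smul, inv_mul_cancel₀ (hc0 v), one_smul]
    rw [h1]
    exact Submodule.smul_mem _ _ (hx1 v)
  have hne : t (Sum.inl l0) - t (Sum.inr r0) ≠ 0 := by
    rw [sub_ne_zero]
    intro h
    exact absurd (ht h) (by simp)
  have ht1 : t' ∈ gr (joinBdry L R) (momentCurve d t) 1 := by
    have h1 : t' = (t (Sum.inl l0) - t (Sum.inr r0))⁻¹ •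
        ((s + t (Sum.inl l0) • t') - (s + t (Sum.inr r0) • t')) := by
      rw [add_sub_add_left_eq_sub, ← sub_smul, smul_smul, inv_mul_cancel₀ hne, one_smul]
    rw [h1]
    exact Submodule.smul_mem _ _ (Submodule.sub_mem _ (hst _) (hst _))
  have hs1 : s ∈ gr (joinBdry L R) (momentCurve d t) 1 := by
    have h1 : s = (s + t (Sum.inl l0) • t') - t (Sum.inl l0) • t' := by abel
    rw [h1]
    exact Submodule.sub_mem _ (hst _) (Submodule.smul_mem _ _ ht1)
  have hprodL : ∏ l, (s + t (Sum.inl l) • t') = 0 := by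
    have hnf : (univ.map Function.Embedding.inl : Finset (L ⊕ R)) ∉ joinBdry L R := by
      rintro ⟨⟨l, hl⟩, _⟩
      exact hl (Finset.mem_map_of_mem _ (Finset.mem_univ l))
    have hmem : (∏ v ∈ (univ.map Function.Embedding.inl : Finset (L ⊕ R)),
        MvPolynomial.X v : MvPolynomial (L ⊕ R) k) ∈ I := by
      rw [hI, redIdeal]
      exact Ideal.mem_sup_left (Ideal.subset_span ⟨_, hnf, rfl⟩)
    have h1 := Ideal.Quotient.eq_zero_iff_mem.mpr hmem
    rw [map_prod, Finset.prod_map] at h1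
    have h2 : ∏ l, x (Sum.inl l) = 0 := h1
    rw [Finset.prod_congr rfl fun l _ => hc (Sum.inl l)] at h2
    rw [Finset.prod_smul] at h2
    rcases smul_eq_zero.mp h2 with h3 | h3
    · exact absurd h3 (Finset.prod_ne_zero_iff.mpr fun l _ => hc0 _)
    · exact h3
  have hprodR : ∏ r, (s + t (Sum.inr r) • t') = 0 := by
    have hnf : (univ.map Function.Embedding.inr : Finset (L ⊕ R)) ∉ joinBdry L R := by
      rintro ⟨_, ⟨r, hr⟩⟩
      exact hr (Finset.mem_map_of_mem _ (Finset.mem_univ r))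
    have hmem : (∏ v ∈ (univ.map Function.Embedding.inr : Finset (L ⊕ R)),
        MvPolynomial.X v : MvPolynomial (L ⊕ R) k) ∈ I := by
      rw [hI, redIdeal]
      exact Ideal.mem_sup_left (Ideal.subset_span ⟨_, hnf, rfl⟩)
    have h1 := Ideal.Quotient.eq_zero_iff_mem.mpr hmem
    rw [map_prod, Finset.prod_map] at h1
    have h2 : ∏ r, x (Sum.inr r) = 0 := h1
    rw [Finset.prod_congr rfl fun r _ => hc (Sum.inr r)] at h2
    rw [Finset.prod_smul] at h2
    rcases smul_eq_zero.mp h2 with h3 | h3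
    · exact absurd h3 (Finset.prod_ne_zero_iff.mpr fun r _ => hc0 _)
    · exact h3
  have hlin : ∀ ℓ ∈ gr (joinBdry L R) (momentCurve d t) 1, ∃ α β : k, ℓ = α • s + β • t' := by
    intro ℓ hℓ
    obtain ⟨f, hf, rfl⟩ := hℓ
    rw [MvPolynomial.homogeneousSubmodule_one_eq_span_X] at hf
    induction hf using Submodule.span_induction with
    | zero => exact ⟨0, 0, by simp⟩
    | add a b _ _ ha hb =>
      obtain ⟨α, β, h1⟩ := ha
      obtain ⟨α', β', h2⟩ := hb
      refine ⟨α + α', β + β', ?_⟩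
      rw [map_add, h1, h2, add_smul, add_smul]
      abel
    | smul r a _ ha =>
      obtain ⟨α, β, h1⟩ := ha
      refine ⟨r * α, r * β, ?_⟩
      rw [map_smul, h1, smul_add, smul_smul, smul_smul]
    | mem a ha =>
      obtain ⟨v, rfl⟩ := ha
      refine ⟨c v, c v * t v, ?_⟩
      have : (Ideal.Quotient.mkₐ k (redIdeal (joinBdry L R) (momentCurve d t))).toLinearMap
          (MvPolynomial.X v) = x v := rfl
      rw [this, hc v, smul_add, smul_smul]
  obtain ⟨hw, z, hz, hsz⟩ := hN _ (gr (joinBdry L R) (momentCurve d t)) hG s hs1 t' ht1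
    hprodL hprodR
  rintro ⟨ℓ, hℓ, hbij⟩
  obtain ⟨α, β, hαβ⟩ := hlin ℓ hℓ
  -- the `Q`-th power of `ℓ`
  have hℓQ : ℓ ^ Q = α ^ Q • (t' ^ (Q - e) * z) := by
    have h1 : ℓ ^ Q = α ^ Q • s ^ Q + β ^ Q • t' ^ Q := by
      rw [hαβ]
      exact hfrob _ s t' α β
    rw [h1, hw, smul_zero, add_zero, hsz]
  have hkill : t' ^ e * ℓ ^ Q = 0 := by
    rw [hℓQ, mul_smul_comm, ← mul_assoc, ← pow_add, show e + (Q - e) = Q by omega, hw, zero_mul,
      smul_zero]
  -- the elements of degree `d - e`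
  have hkill2 : ∀ y ∈ gr (joinBdry L R) (momentCurve d t) (d - e), t' ^ e * y = 0 := by
    intro y hy
    obtain ⟨y', _, rfl⟩ := (hbij e (by omega)).surjOn hy
    simp only
    have h1 : ℓ ^ (d - 2 * e) = ℓ ^ Q * ℓ ^ (d - 2 * e - Q) := by
      rw [← pow_add]; congr 1; omega
    rw [h1, mul_assoc, ← mul_assoc, hkill, zero_mul]
  have hℓd : ℓ ^ d = 0 := by
    have h1 : ℓ ^ d = α ^ Q • (t' ^ e * (t' ^ (Q - e - e) * z * ℓ ^ (d - Q))) := by
      have h2 : ℓ ^ d = ℓ ^ Q * ℓ ^ (d - Q) := by rw [← pow_add]; congr 1; omega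
      have h3 : t' ^ (Q - e) = t' ^ e * t' ^ (Q - e - e) := by
        rw [← pow_add]; congr 1; omega
      rw [h2, hℓQ, h3, smul_mul_assoc]
      congr 1
      ring
    rw [h1, hkill2, smul_zero]
    have h4 := hG.2 _ _ _ _ (hG.2 _ _ _ _ (hG.pow ht1 (Q - e - e)) hz) (hG.pow hℓ (d - Q))
    have h5 : 1 * (Q - e - e) + e + 1 * (d - Q) = d - e := by omega
    rwa [h5] at h4
  have h1 := (hbij 0 (by omega)).injOn
  have h2 : (1 : Red (joinBdry L R) (momentCurve d t)) = 0 := by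
    apply h1 hG.1 (Submodule.zero_mem _)
    simp only [Nat.mul_zero, Nat.sub_zero, hℓd, zero_mul]
  exact one_ne_zero h2

end Core

variable {k : Type u} [Field k] [Infinite k] (p : ℕ) [hp : Fact p.Prime] [CharP k p]

theorem main (hodd : p ≠ 2) (m a b : ℕ) (ha : a < p ^ (m + 1)) (hb : b < p ^ (m + 1))
    (hab : p ^ (m + 1) + 2 * p ^ m ≤ a + b) :
    ∃ t : Fin (a + 1) ⊕ Fin (b + 1) → k, Function.Injective t ∧ (∀ v, t v ≠ 0) ∧
      ¬ HasLefschetz (joinBdry (Fin (a + 1)) (Fin (b + 1))) (momentCurve (a + b) t) := by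
  classical
  obtain ⟨ι, _, _, v, h, htop⟩ := exists_good_top (k := k) p hodd m
  obtain ⟨g, hg⟩ := h.exists_ne
  have h2 : (2 : k) ≠ 0 := by
    intro h2
    have h3 : ((2 : ℕ) : k) = 0 := by exact_mod_cast h2
    rw [CharP.cast_eq_zero_iff k p] at h3
    exact hodd (((Nat.prime_dvd_prime_iff_eq hp.out Nat.prime_two).1 h3))
  obtain ⟨f⟩ : Nonempty (Fin (a + 1) ↪ ι) := Function.Embedding.nonempty_of_card_le (by
    rw [Fintype.card_fin, h.card]; omega)
  obtain ⟨f'⟩ : Nonempty (Fin (b + 1) ↪ ι) := Function.Embedding.nonempty_of_card_le (by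
    rw [Fintype.card_fin, h.card]; omega)
  have hv0 : ∀ x, g + v x ≠ 0 := by
    intro x hx
    exact hg (Finset.prod_eq_zero (mem_univ x) hx)
  have hv0' : ∀ x, -g + v x ≠ 0 := by
    intro x hx
    apply hv0 (-x)
    rw [map_neg]
    linear_combination -hx
  let t : Fin (a + 1) ⊕ Fin (b + 1) → k := fun y =>
    y.elim (fun i => g + v (f i)) (fun j => -g + v (f' j))
  have hcross : ∀ x y, g + v x ≠ -g + v y := by
    intro x y hxy
    have h3 := congrArg h.E hxy
    rw [map_add, map_add, map_neg, h.E_v, h.E_v] at h3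
    have h4 : 2 * h.E g = 0 := by linear_combination h3
    exact (mul_ne_zero h2 hg) h4
  have ht : Function.Injective t := by
    rintro (i | i) (j | j) hij
    · simp only [t, Sum.elim_inl, add_right_inj] at hij
      rw [f.injective (h.inj hij)]
    · exact absurd hij (hcross _ _)
    · exact absurd hij.symm (hcross _ _)
    · simp only [t, Sum.elim_inr, add_right_inj] at hij
      rw [f'.injective (h.inj hij)]
  have ht0 : ∀ y, t y ≠ 0 := by
    rintro (i | i)
    · exact hv0 _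
    · exact hv0' _
  have hpm : 0 < p ^ m := pow_pos hp.out.pos m
  have hp3 : 2 ≤ p := hp.out.two_le
  have hpp : 2 * p ^ m ≤ p ^ (m + 1) := by
    rw [pow_succ, mul_comm]
    exact Nat.mul_le_mul_left _ hp3
  refine ⟨t, ht, ht0, ?_⟩
  refine core (d := a + b) (e := p ^ m) (Q := p ^ (m + 1)) (by simp; omega) (by simp; omega)
    (by simp; omega) hpm hpp hab t ht ht0 ?_ ?_
  · intro B _ _ _ y w α β
    have : CharP B p := charP_of_injective_algebraMap (algebraMap k B).injective p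
    rw [add_pow_char_pow, smul_pow, smul_pow]
  · intro B _ _ _ G hG s hs t' ht' e1 e2
    have : CharP B p := charP_of_injective_algebraMap (algebraMap k B).injective p
    have sub : ∀ {n : ℕ} (F : Fin n ↪ ι) (φ : ι → B), ∏ i, φ (F i) = 0 → ∏ x, φ x = 0 := by
      intro n F φ hφ
      have h5 : ∏ x ∈ univ.map F, φ x = 0 := by rw [Finset.prod_map]; exact hφ
      rw [← Finset.prod_mul_prod_compl (univ.map F) φ, h5, zero_mul]
    have c1 : ∏ x, (s + (g + v x) • t') = 0 := sub f (fun x => s + (g + v x) • t') e1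
    have c2 : ∏ x, (s + (-g + v x) • t') = 0 := sub f' (fun x => s + (-g + v x) • t') e2
    rw [h.shift B s t' g, ← h.E_apply] at c1
    rw [h.shift B s t' (-g), ← h.E_apply, map_neg] at c2
    have c3 : (2 * h.E g) • t' ^ p ^ (m + 1) = 0 := by
      have : (2 * h.E g) • t' ^ p ^ (m + 1) = (∏ x, (s + v x • t') + h.E g • t' ^ p ^ (m + 1)) -
          (∏ x, (s + v x • t') + (-h.E g) • t' ^ p ^ (m + 1)) := by
        rw [two_mul, add_smul, neg_smul]
        abel
      rw [this, c1, c2, sub_zero]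
    have c4 : t' ^ p ^ (m + 1) = 0 := (smul_eq_zero.1 c3).resolve_left (mul_ne_zero h2 hg)
    refine ⟨c4, ?_⟩
    obtain ⟨z, hz, hz2⟩ := htop B G hG s hs t' ht'
    refine ⟨z, hz, ?_⟩
    rw [c4, smul_zero, add_zero, hz2] at c1
    exact sub_eq_zero.1 c1

end Pool.Agent.Y493.HL
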